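import Pool.Agent.helper56.P3.Defs

/-!
# P3, module B1: places and composite valuation rings
-/

namespace Pool.Agent.helper56.P3

open Finset Pool.Agent.helper56.Per

section B1

variable {k K : Type*} [Field k] [Field K] [Algebra k K]

theorem B1_gt_iff (A : ValuationSubring K) (x : K) : 1 < A.valuation x ↔ x ∉ A := by
  rw [← not_le, A.valuation_le_one_iff]

theorem B1_lt_iff (A : ValuationSubring K) {x : K} (hx : x ≠ 0) :
    A.valuation x < 1 ↔ x⁻¹ ∉ A := by
  rw [← B1_gt_iff, map_inv₀, one_lt_inv₀ (zero_lt_iff.2 ((A.valuation.ne_zero_iff).2 hx))]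

/-- a polynomial over `k` which is small at `x` has a root close to `x` -/
theorem B1_root [IsAlgClosed k] {Γ : Type*} [LinearOrderedCommGroupWithZero Γ]
    (v : Valuation K Γ) (hc : ∀ α : k, α ≠ 0 → v (algebraMap k K α) = 1) {x : K}
    (hx : v x ≤ 1) : ∀ (n : ℕ) (p : Polynomial k), p.natDegree ≤ n → p ≠ 0 →
      v (Polynomial.aeval x p) < 1 → ∃ α : k, v (x - algebraMap k K α) < 1 := by
  intro n
  induction n with
  | zero =>
    intro p hp hp0 h
    rw [Polynomial.eq_C_of_natDegree_le_zero hp] at h hp0
    rw [Polynomial.aeval_C, hc _ (fun h0 => hp0 (by rw [h0, Polynomial.C_0]))] at h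
    exact absurd h (lt_irrefl _)
  | succ n ih =>
    intro p hp hp0 h
    by_cases hd : p.natDegree = 0
    · exact ih p (by omega) hp0 h
    · obtain ⟨α, hα⟩ := IsAlgClosed.exists_root p (fun h0 => hd
        (Polynomial.natDegree_eq_of_degree_eq_some h0))
      obtain ⟨s, hs⟩ := Polynomial.dvd_iff_isRoot.2 hα
      by_cases h1 : v (x - algebraMap k K α) < 1
      · exact ⟨α, h1⟩
      · have hs0 : s ≠ 0 := by rintro rfl; rw [mul_zero] at hs; exact hp0 hs
        have hdeg : s.natDegree ≤ n := by
          have := Polynomial.natDegree_mul (Polynomial.X_sub_C_ne_zero α) hs0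
          rw [← hs, Polynomial.natDegree_X_sub_C] at this
          omega
        refine ih s hdeg hs0 ?_
        rw [hs, map_mul, map_mul, map_sub, Polynomial.aeval_X, Polynomial.aeval_C] at h
        refine lt_of_le_of_lt ?_ h
        exact le_mul_of_one_le_left' (not_lt.1 h1)

theorem isPl_of [IsAlgClosed k] (hTD : TD1 k K) (P : ValuationSubring K)
    (hk : ∀ α : k, algebraMap k K α ∈ P) (hne : P ≠ ⊤) : IsPl k P := by
  have hcst : ∀ α : k, α ≠ 0 → P.valuation (algebraMap k K α) = 1 := by
    intro α hα
    refine le_antisymm ((P.valuation_le_one_iff _).2 (hk α)) ?_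
    have h := (P.valuation_le_one_iff _).2 (hk α⁻¹)
    rw [map_inv₀, map_inv₀, inv_le_one₀ (zero_lt_iff.2
      ((P.valuation.ne_zero_iff).2 ((_root_.map_ne_zero _).2 hα)))] at h
    exact h
  refine ⟨hcst, fun x hx => ?_⟩
  -- a nonzero element of the maximal ideal
  obtain ⟨u, hu0, hu⟩ : ∃ u : K, u ≠ 0 ∧ P.valuation u < 1 := by
    by_contra hcon
    push Not at hcon
    apply hne
    ext y
    simp only [ValuationSubring.mem_top, iff_true]
    by_cases hy : y = 0
    · rw [hy]; exact zero_mem _
    · rw [← P.valuation_le_one_iff]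
      have h := hcon y⁻¹ (inv_ne_zero hy)
      rw [map_inv₀, one_le_inv₀ (zero_lt_iff.2 ((P.valuation.ne_zero_iff).2 hy))] at h
      exact h
  have hdep := hTD u x
  rw [algebraicIndependent_iff] at hdep
  push Not at hdep
  obtain ⟨p, hp, hp0⟩ := hdep
  let f : MvPolynomial (Fin 1) k →ₐ[k] K := MvPolynomial.aeval ![x]
  have hfP : ∀ r, P.valuation (f r) ≤ 1 := by
    intro r
    rw [P.valuation_le_one_iff]
    induction r using MvPolynomial.induction_on with
    | C a => simpa [f] using hk a
    | add p q hp hq => rw [map_add]; exact add_mem hp hq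
    | mul_X p i hp =>
      rw [map_mul]
      refine mul_mem hp ?_
      have : f (MvPolynomial.X i) = x := by
        simp [f, Subsingleton.elim i 0]
      rw [this]
      exact (P.valuation_le_one_iff _).1 hx
  have heq : ∀ r : MvPolynomial (Fin 2) k, MvPolynomial.aeval ![u, x] r
      = Polynomial.eval₂ (f : MvPolynomial (Fin 1) k →+* K) u (MvPolynomial.finSuccEquiv k 1 r) := by
    intro r
    have : (MvPolynomial.aeval ![u, x] : MvPolynomial (Fin 2) k →ₐ[k] K).toRingHom
        = (Polynomial.eval₂RingHom (f : MvPolynomial (Fin 1) k →+* K) u).comp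
          ((MvPolynomial.finSuccEquiv k 1).toRingEquiv : MvPolynomial (Fin 2) k →+* _) := by
      apply MvPolynomial.ringHom_ext
      · intro a
        simp [MvPolynomial.finSuccEquiv_apply, f]
      · intro i
        refine Fin.cases ?_ (fun j => ?_) i
        · simp [MvPolynomial.finSuccEquiv_X_zero]
        · have hj : j = 0 := Subsingleton.elim _ _
          subst hj
          have h1 := MvPolynomial.finSuccEquiv_X_succ (R := k) (n := 1) (j := 0)
          show MvPolynomial.aeval ![u, x] (MvPolynomial.X (Fin.succ 0)) = Polynomial.eval₂ _ u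
            (MvPolynomial.finSuccEquiv k 1 (MvPolynomial.X (Fin.succ 0)))
          rw [h1]
          simp [f]
    exact congrArg (fun g => g r) this
  set q := MvPolynomial.finSuccEquiv k 1 p with hq
  have hq0 : q ≠ 0 := by
    rw [hq]; exact (MvPolynomial.finSuccEquiv k 1).map_ne_zero_iff.2 hp0
  rw [heq p] at hp
  obtain ⟨q', hq', hnd⟩ := Polynomial.exists_eq_pow_rootMultiplicity_mul_and_not_dvd q hq0 0
  have hr0 : q'.coeff 0 ≠ 0 := by
    intro h0
    apply hnd
    rw [Polynomial.C_0, sub_zero]
    exact Polynomial.X_dvd_iff.2 h0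
  have hev : Polynomial.eval₂ (f : MvPolynomial (Fin 1) k →+* K) u q' = 0 := by
    rw [← hq, hq', Polynomial.eval₂_mul, Polynomial.eval₂_pow, Polynomial.C_0, sub_zero,
      Polynomial.eval₂_X] at hp
    exact (mul_eq_zero.1 hp).resolve_left (pow_ne_zero _ hu0)
  have hcoe : ∀ s : Polynomial (MvPolynomial (Fin 1) k),
      P.valuation (Polynomial.eval₂ (f : MvPolynomial (Fin 1) k →+* K) u s) ≤ 1 := by
    intro s
    rw [P.valuation_le_one_iff, Polynomial.eval₂_eq_sum, Polynomial.sum]
    refine sum_mem fun i _ => mul_mem ?_ (pow_mem ?_ _)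
    · exact (P.valuation_le_one_iff _).1 (hfP _)
    · exact (P.valuation_le_one_iff _).1 hu.le
  have hsmall : P.valuation (f (q'.coeff 0)) < 1 := by
    have h1 : f (q'.coeff 0)
        = -(Polynomial.eval₂ (f : MvPolynomial (Fin 1) k →+* K) u q'.divX * u) := by
      have h2 := Polynomial.divX_mul_X_add q'
      rw [← h2, Polynomial.eval₂_add, Polynomial.eval₂_mul, Polynomial.eval₂_X,
        Polynomial.eval₂_C] at hev
      exact (eq_neg_of_add_eq_zero_right hev)
    rw [h1, Valuation.map_neg, map_mul]
    exact lt1_of_le_of_lt (hcoe _) hu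
  -- one variable
  let r' : Polynomial k := MvPolynomial.aeval (fun _ => Polynomial.X) (q'.coeff 0)
  have hr' : Polynomial.aeval x r' = f (q'.coeff 0) := by
    have : (Polynomial.aeval x).comp
        (MvPolynomial.aeval (fun _ => Polynomial.X) : MvPolynomial (Fin 1) k →ₐ[k] Polynomial k)
        = f := by
      apply MvPolynomial.algHom_ext
      intro i
      simp [f, Subsingleton.elim i 0]
    exact congrArg (fun g => g (q'.coeff 0)) this
  have hr'0 : r' ≠ 0 := by
    intro h0
    have : (Polynomial.aeval (MvPolynomial.X 0 : MvPolynomial (Fin 1) k)).comp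
        (MvPolynomial.aeval (fun _ => Polynomial.X) : MvPolynomial (Fin 1) k →ₐ[k] Polynomial k)
        = AlgHom.id k _ := by
      apply MvPolynomial.algHom_ext
      intro i
      simp [Subsingleton.elim i 0]
    have h1 := congrArg (fun g => g (q'.coeff 0)) this
    simp only [AlgHom.comp_apply, AlgHom.id_apply] at h1
    change Polynomial.aeval _ r' = _ at h1
    rw [h0, map_zero] at h1
    exact hr0 h1.symm
  exact B1_root P.valuation hcst hx _ r' le_rfl hr'0 (by rw [hr']; exact hsmall)

theorem IsPl.charZ [CharZero k] {P : ValuationSubring K} (hP : IsPl k P) :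
    CharZ P.valuation := by
  intro j hj
  have := hP.cst (j : k) (Nat.cast_ne_zero.2 hj)
  rwa [map_natCast] at this

theorem mem_comp {P : ValuationSubring K} (hP : IsPl k P) (O : ValuationSubring k) {x : K} :
    x ∈ comp P hP O ↔ ∃ α ∈ O, P.valuation (x - algebraMap k K α) < 1 := Iff.rfl

theorem IsPl.cst_le {P : ValuationSubring K} (hP : IsPl k P) (α : k) :
    P.valuation (algebraMap k K α) ≤ 1 := by
  by_cases h : α = 0
  · rw [h, map_zero, map_zero]; exact zero_le_one
  · exact (hP.cst α h).le

/-- the residue is unique -/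
theorem IsPl.res_unique {P : ValuationSubring K} (hP : IsPl k P) {x : K} {α β : k}
    (h1 : P.valuation (x - algebraMap k K α) < 1) (h2 : P.valuation (x - algebraMap k K β) < 1) :
    α = β := by
  by_contra hne
  have h3 := hP.cst (α - β) (sub_ne_zero.2 hne)
  have h4 : algebraMap k K (α - β)
      = (x - algebraMap k K β) - (x - algebraMap k K α) := by rw [map_sub]; ring
  rw [h4] at h3
  exact absurd h3 (Valuation.map_sub_lt _ h2 h1).ne

theorem comp_le {P : ValuationSubring K} (hP : IsPl k P) (O : ValuationSubring k) :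
    comp P hP O ≤ P := by
  rintro x ⟨α, hα, h⟩
  rw [← P.valuation_le_one_iff, show x = (x - algebraMap k K α) + algebraMap k K α by ring]
  exact P.valuation.map_add_le h.le (hP.cst_le α)

theorem B1_mem_comp_iff {P : ValuationSubring K} (hP : IsPl k P) (O : ValuationSubring k) {x : K}
    {α : k} (hx : P.valuation (x - algebraMap k K α) < 1) : x ∈ comp P hP O ↔ α ∈ O := by
  constructor
  · rintro ⟨β, hβ, h⟩
    rwa [hP.res_unique hx h]
  · intro h
    exact ⟨α, h, hx⟩

theorem comp_ext {P : ValuationSubring K} (hP : IsPl k P) (O : ValuationSubring k) :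
    Ext O (comp P hP O).valuation := by
  intro x
  rw [ValuationSubring.valuation_le_one_iff, ValuationSubring.valuation_le_one_iff,
    B1_mem_comp_iff hP O (α := x) (by rw [sub_self, map_zero]; exact zero_lt_one)]

/-- coarsening: a valuation ring `ν' ≤ ν` -/
theorem gt_of_le_of_gt {ν' ν : ValuationSubring K} (hle : ν' ≤ ν) {x : K}
    (hx : 1 < ν.valuation x) : 1 < ν'.valuation x := by
  rw [B1_gt_iff] at hx ⊢
  exact fun h => hx (hle h)

theorem lt_of_le_of_lt' {ν' ν : ValuationSubring K} (hle : ν' ≤ ν) {x : K}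
    (hx : ν.valuation x < 1) : ν'.valuation x < 1 := by
  by_cases h0 : x = 0
  · rw [h0, map_zero]; exact zero_lt_one
  · rw [B1_lt_iff _ h0] at hx ⊢
    exact fun h => hx (hle h)

theorem comp_lt_of_lt {P : ValuationSubring K} (hP : IsPl k P) (O : ValuationSubring k) {x : K}
    (hx : P.valuation x < 1) : (comp P hP O).valuation x < 1 :=
  lt_of_le_of_lt' (comp_le hP O) hx

theorem comp_gt_of_gt {P : ValuationSubring K} (hP : IsPl k P) (O : ValuationSubring k) {x : K}
    (hx : 1 < P.valuation x) : 1 < (comp P hP O).valuation x :=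
  gt_of_le_of_gt (comp_le hP O) hx

theorem comp_gt_iff {P : ValuationSubring K} (hP : IsPl k P) (O : ValuationSubring k) {x : K}
    {α : k} (hx : P.valuation (x - algebraMap k K α) < 1) :
    1 < (comp P hP O).valuation x ↔ 1 < O.valuation α := by
  rw [B1_gt_iff, B1_gt_iff, B1_mem_comp_iff hP O hx]

theorem comp_lt_iff {P : ValuationSubring K} (hP : IsPl k P) (O : ValuationSubring k) {x : K}
    {α : k} (hx : P.valuation (x - algebraMap k K α) < 1) :
    (comp P hP O).valuation x < 1 ↔ O.valuation α < 1 := by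
  by_cases hα : α = 0
  · subst hα
    rw [map_zero, sub_zero] at hx
    rw [map_zero]
    exact ⟨fun _ => zero_lt_one, fun _ => comp_lt_of_lt hP O hx⟩
  · have h1 := hP.cst α hα
    have h2 : P.valuation x = 1 := by
      rw [show x = algebraMap k K α + (x - algebraMap k K α) by ring,
        Valuation.map_add_eq_of_lt_left _ (by rwa [h1]), h1]
    have hx0 : x ≠ 0 := by rintro rfl; rw [map_zero] at h2; exact zero_ne_one h2
    have hα0' : algebraMap k K α ≠ 0 := (_root_.map_ne_zero _).2 hα
    have h3 : P.valuation (x⁻¹ - algebraMap k K α⁻¹) < 1 := by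
      have e : x⁻¹ - algebraMap k K α⁻¹
          = -(x - algebraMap k K α) * (x⁻¹ * (algebraMap k K α)⁻¹) := by
        rw [map_inv₀]; field_simp; ring
      rw [e, map_mul, Valuation.map_neg, map_mul, map_inv₀, map_inv₀, h1, h2, inv_one, mul_one,
        mul_one]
      exact hx
    rw [B1_lt_iff _ hx0, B1_lt_iff _ hα, B1_mem_comp_iff hP O h3]

end B1

end Pool.Agent.helper56.P3
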