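import Pool.Agent.helper56.P3.Defs

/-!
# P3, module M1: Milnor's example `Per_2(-3) ⊆ Per_3(1)`, uniqueness of the 2-cycle
-/

namespace Pool.Agent.helper56.P3

open Finset Pool.Agent.helper56.Per

section M1

theorem M1_mk {K : Type*} [Field K] {a b x0 x1 x2 : K}
    (s0 : x1 * (b * x0 + 1) = x0 * (x0 + a)) (s1 : x2 * (b * x1 + 1) = x1 * (x1 + a))
    (s2 : x0 * (b * x2 + 1) = x2 * (x2 + a)) (n0 : x0 ≠ 0) (n1 : x1 ≠ 0) (n2 : x2 ≠ 0)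
    (d0 : b * x0 + 1 ≠ 0) (d1 : b * x1 + 1 ≠ 0) (d2 : b * x2 + 1 ≠ 0)
    (hall : ¬ (x0 = x1 ∧ x1 = x2))
    (hm : (b * x0 ^ 2 + 2 * x0 + a) * (b * x1 ^ 2 + 2 * x1 + a) * (b * x2 ^ 2 + 2 * x2 + a)
      = (b * x0 + 1) ^ 2 * (b * x1 + 1) ^ 2 * (b * x2 + 1) ^ 2) :
    ∃ x : ℕ → K, NCyc a b 3 1 x ∧ Exact 3 x := by
  have h01 : x0 ≠ x1 := by
    intro h
    refine hall ⟨h, ?_⟩
    have : (x1 - x2) * (b * x1 + 1) = 0 := by rw [h] at s0; linear_combination s0 - s1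
    exact sub_eq_zero.1 ((mul_eq_zero.1 this).resolve_right d1)
  have h12 : x1 ≠ x2 := by
    intro h
    refine hall ⟨?_, h⟩
    have : (x0 - x1) * (b * x2 + 1) = 0 := by rw [h] at s1 ⊢; linear_combination s2 - s1
    exact sub_eq_zero.1 ((mul_eq_zero.1 this).resolve_right d2)
  have h20 : x2 ≠ x0 := by
    intro h
    have : (x0 - x1) * (b * x0 + 1) = 0 := by rw [h] at s2; linear_combination s2 - s0
    exact h01 (sub_eq_zero.1 ((mul_eq_zero.1 this).resolve_right d0))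
  let x : ℕ → K := fun i => if i % 3 = 0 then x0 else if i % 3 = 1 then x1 else x2
  have e0 : ∀ i, i % 3 = 0 → x i = x0 := fun i h => by simp only [x, h, if_true]
  have e1 : ∀ i, i % 3 = 1 → x i = x1 := fun i h => by simp [x, h]
  have e2 : ∀ i, i % 3 = 2 → x i = x2 := fun i h => by simp [x, h]
  have hcases : ∀ i : ℕ, i % 3 = 0 ∨ i % 3 = 1 ∨ i % 3 = 2 := fun i => by omega
  refine ⟨x, ⟨by norm_num, ?_, ?_, ?_, ?_, ?_, ?_⟩, ?_⟩
  · intro i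
    rcases hcases i with h | h | h
    · rwa [e0 i h]
    · rwa [e1 i h]
    · rwa [e2 i h]
  · intro i
    rcases hcases i with h | h | h
    · rwa [e0 i h]
    · rwa [e1 i h]
    · rwa [e2 i h]
  · intro i
    rcases hcases i with h | h | h
    · rw [e0 i h, e1 (i + 1) (by omega)]; exact s0
    · rw [e1 i h, e2 (i + 1) (by omega)]; exact s1
    · rw [e2 i h, e0 (i + 1) (by omega)]; exact s2
  · intro i
    rcases hcases i with h | h | h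
    · rw [e0 i h, e0 (i + 3) (by omega)]
    · rw [e1 i h, e1 (i + 3) (by omega)]
    · rw [e2 i h, e2 (i + 3) (by omega)]
  · intro i
    rcases hcases i with h | h | h
    · rw [e0 i h, e1 (i + 1) (by omega)]; exact h01.symm
    · rw [e1 i h, e2 (i + 1) (by omega)]; exact h12.symm
    · rw [e2 i h, e0 (i + 1) (by omega)]; exact h20.symm
  · rw [prod_range_succ, prod_range_succ, prod_range_succ, prod_range_zero, prod_range_succ,
      prod_range_succ, prod_range_succ, prod_range_zero, e0 0 rfl, e1 1 rfl, e2 2 rfl, one_mul,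
      one_mul, one_mul]
    exact hm
  · intro i j hij
    rcases hcases i with h | h | h <;> rcases hcases j with h' | h' | h'
    · rw [h, h']
    · rw [e0 i h, e1 j h'] at hij; exact absurd hij h01
    · rw [e0 i h, e2 j h'] at hij; exact absurd hij.symm h20
    · rw [e1 i h, e0 j h'] at hij; exact absurd hij.symm h01
    · rw [h, h']
    · rw [e1 i h, e2 j h'] at hij; exact absurd hij h12
    · rw [e2 i h, e0 j h'] at hij; exact absurd hij h20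
    · rw [e2 i h, e1 j h'] at hij; exact absurd hij.symm h12
    · rw [h, h']

set_option maxHeartbeats 4000000 in
theorem M1_core {K : Type*} [Field K] [IsAlgClosed K] (A w : K)
    (hp : A ^ 2 - w ^ 2 * A + 2 * w = 0) (h1 : w + 1 ≠ 0) (h0 : w ≠ 0) (h2 : w - 2 ≠ 0)
    (hm : w ^ 2 - w + 1 ≠ 0) (hm2 : w ^ 2 + 2 * w + 4 ≠ 0) :
    ∃ x : ℕ → K, NCyc (A - 1) (w ^ 2 - A - 1) 3 1 x ∧ Exact 3 x := by
  have hE : A + w - 1 ≠ 0 := by
    intro h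
    have h3 : (A + w - 1) * (w ^ 2 - A + w - 1) = (w + 1) * (w ^ 2 - w + 1) := by
      linear_combination (-1) * hp
    rw [h, zero_mul] at h3
    exact mul_ne_zero h1 hm h3.symm
  have hAB : (A + 1) * (w ^ 2 - A + 1) = (w + 1) ^ 2 := by linear_combination (-1) * hp
  have hA : A + 1 ≠ 0 := by
    intro h
    rw [h, zero_mul] at hAB
    exact pow_ne_zero 2 h1 hAB.symm
  have hr : A * (w ^ 5 - w ^ 4 - 3 * w ^ 3 + w ^ 2 + 2 * w) + (-w ^ 5 + 3 * w ^ 3 + 2 * w ^ 2)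
      ≠ 0 := by
    intro h
    have h3 : (A * (w ^ 5 - w ^ 4 - 3 * w ^ 3 + w ^ 2 + 2 * w)
        + (-w ^ 5 + 3 * w ^ 3 + 2 * w ^ 2)) *
        ((w ^ 2 - A) * (w ^ 5 - w ^ 4 - 3 * w ^ 3 + w ^ 2 + 2 * w)
        + (-w ^ 5 + 3 * w ^ 3 + 2 * w ^ 2))
        = -(w ^ 3 * (w - 2) ^ 3 * (w + 1) ^ 4 * (w ^ 2 - w + 1)) := by
      linear_combination (-(w ^ 5 - w ^ 4 - 3 * w ^ 3 + w ^ 2 + 2 * w) ^ 2) * hp
    rw [h, zero_mul] at h3
    exact neg_ne_zero.2 (mul_ne_zero (mul_ne_zero (mul_ne_zero (pow_ne_zero 3 h0)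
      (pow_ne_zero 3 h2)) (pow_ne_zero 4 h1)) hm) h3.symm
  have hT : (1 + w) ^ 2 * (w ^ 2 - w + 1) ≠ 0 :=
    mul_ne_zero (pow_ne_zero 2 (by rwa [add_comm])) hm
  -- the root of the cubic
  obtain ⟨x, hx⟩ := IsAlgClosed.exists_root
    (Polynomial.C ((1 + w) ^ 2 * (w ^ 2 - w + 1)) * Polynomial.X ^ 3
      + Polynomial.C ((1 + w) ^ 2 * (w ^ 2 - w + 1) * (A + w - 1)) * Polynomial.X ^ 2
      + Polynomial.C ((1 + w) * (w ^ 2 - w + 1) * (A + w - 1) * (A + 1)) * Polynomial.X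
      + Polynomial.C ((A + w - 1) ^ 2 * (A + 1)))
    (by rw [Polynomial.degree_cubic hT]; norm_num)
  have hG : (1 + w) ^ 2 * (w ^ 2 - w + 1) * x ^ 3
      + (1 + w) ^ 2 * (w ^ 2 - w + 1) * (A + w - 1) * x ^ 2
      + (1 + w) * (w ^ 2 - w + 1) * (A + w - 1) * (A + 1) * x + (A + w - 1) ^ 2 * (A + 1) = 0 := by
    simpa [Polynomial.IsRoot] using hx
  have hV : (w ^ 2 - A - 1) ^ 3 * (-((A + w - 1) ^ 2 * (A + 1)))
      + (w ^ 2 - A - 1) ^ 2 * ((1 + w) * (w ^ 2 - w + 1) * (A + w - 1) * (A + 1))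
      + (w ^ 2 - A - 1) * (-((1 + w) ^ 2 * (w ^ 2 - w + 1) * (A + w - 1)))
      + (1 + w) ^ 2 * (w ^ 2 - w + 1) ≠ 0 := by
    intro h
    apply hr
    linear_combination h - (A^4 + (-2)*A^3*w^2 + 2*A^3*w + 2*A^3 + A^2*w^4 + (-3)*A^2*w^3 + 4*A^2*w + A*w^5 +
      (-2)*A*w^4 + (-2)*A*w^3 + 4*A*w^2 + A*w + (-2)*A) * hp
  have hD : (w ^ 2 - A - 1) * x + 1 ≠ 0 := by
    intro h
    apply hV
    linear_combination (-(w ^ 2 - A - 1) ^ 3) * hG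
      + ((1 + w) ^ 2 * (w ^ 2 - w + 1) * (((w ^ 2 - A - 1) * x) ^ 2 - (w ^ 2 - A - 1) * x + 1)
        + (w ^ 2 - A - 1) * ((1 + w) ^ 2 * (w ^ 2 - w + 1)) * (A + w - 1)
          * ((w ^ 2 - A - 1) * x - 1)
        + (w ^ 2 - A - 1) ^ 2 * ((1 + w) * (w ^ 2 - w + 1) * (A + w - 1) * (A + 1))) * h
  have hpre : (w + 1) ^ 3 * (w ^ 2 - w + 1) ≠ 0 := mul_ne_zero (pow_ne_zero 3 h1) hm
  have hR1 : (-(A + w - 1 + x) * ((w ^ 2 - A - 1) * x + 1) - x * (x + (A - 1)))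
        * ((w ^ 2 - A - 1) * (x * (x + (A - 1))) + ((w ^ 2 - A - 1) * x + 1))
      - x * (x + (A - 1)) * (x * (x + (A - 1)) + (A - 1) * ((w ^ 2 - A - 1) * x + 1)) = 0 := by
    refine (mul_eq_zero.1 ?_).resolve_left hpre
    linear_combination (-(w + 1) * ((w ^ 2 - A - 1) ^ 2 + (w ^ 2 - A - 1) + 1) * x
      - (w ^ 2 - A + w - 1) * (w ^ 2 - A + 1)) * hG + (-x^3*A*w^5 + (-2)*x^3*A*w^4 + (-1)*x^3*A*w^3 + (-1)*x^3*A*w^2 + (-2)*x^3*A*w + (-1)*x^3*A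
      + x^3*w^7 + 2*x^3*w^6 + x^3*w^5 + 2*x^3*w^4 + 3*x^3*w^3 + x^3*w^2 + x^3*w + x^3 +
      (-1)*x^2*A^2*w^5 + (-1)*x^2*A^2*w^4 + (-1)*x^2*A^2*w^2 + (-1)*x^2*A^2*w + x^2*A*w^7 +
      5*x^2*A*w^4 + 3*x^2*A*w^3 + 4*x^2*A*w + 3*x^2*A + x^2*w^8 + (-3)*x^2*w^6 + x^2*w^4 +
      (-3)*x^2*w^3 + (-1)*x^2*w^2 + x^2*w + x*A^3*w + x*A^3 + x*A^2*w^2 + 2*x*A^2*w + x*A^2 +
      x*A*w^3 + 2*x*A*w^2 + x*A*w + (-2)*x*w^3 + x*w^2 + (-3)*x + A^3 + (-1)*A^2*w^2 + A^2*w +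
      (-1)*A^2 + (-2)*A*w^3 + (-2)*A + (-1)*w^4 + w^2 + (-2)*w + 2) * hp
  have hR2 : x * ((w ^ 2 - A - 1) * (-(A + w - 1 + x) * ((w ^ 2 - A - 1) * x + 1)
        - x * (x + (A - 1))) + ((w ^ 2 - A - 1) * x + 1)) * ((w ^ 2 - A - 1) * x + 1)
      - (-(A + w - 1 + x) * ((w ^ 2 - A - 1) * x + 1) - x * (x + (A - 1)))
        * ((-(A + w - 1 + x) * ((w ^ 2 - A - 1) * x + 1) - x * (x + (A - 1)))
          + (A - 1) * ((w ^ 2 - A - 1) * x + 1)) = 0 := by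
    refine (mul_eq_zero.1 ?_).resolve_left hpre
    linear_combination (-(w + 1) * (w ^ 2 - A) * ((w ^ 2 - A - 1) ^ 2 + (w ^ 2 - A - 1) + 1) * x
      - w * (w ^ 2 - A + w - 1) * (w ^ 2 - A + 1)) * hG + (x^3*w^5 + x^3*w^4 + x^3*w^2 + x^3*w + (-1)*x^2*A^3*w^4 + (-1)*x^2*A^3*w^3 + (-1)*x^2*A^3*w
      + (-1)*x^2*A^3 + 2*x^2*A^2*w^6 + x^2*A^2*w^5 + (-2)*x^2*A^2*w^4 + x^2*A^2*w^3 +
      x^2*A^2*w^2 + (-2)*x^2*A^2*w + (-1)*x^2*A^2 + (-1)*x^2*A*w^8 + x^2*A*w^7 + 2*x^2*A*w^6 +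
      (-2)*x^2*A*w^5 + (-1)*x^2*A*w^4 + x^2*A*w^3 + (-1)*x^2*A*w^2 + (-2)*x^2*A*w + (-1)*x^2*A +
      (-1)*x^2*w^9 + 3*x^2*w^7 + x^2*w^6 + (-3)*x^2*w^5 + 2*x^2*w^3 + (-3)*x^2*w^2 + (-3)*x^2*w
      + (-1)*x*A^4*w + (-1)*x*A^4 + 2*x*A^3*w^3 + (-2)*x*A^3*w + (-1)*x*A^2*w^5 + 4*x*A^2*w^4 +
      2*x*A^2*w^3 + (-2)*x*A^2*w^2 + 2*x*A^2*w + x*A^2 + (-3)*x*A*w^6 + x*A*w^5 + 3*x*A*w^4 +
      (-2)*x*A*w^3 + (-1)*x*A*w^2 + x*A*w + x*A + (-2)*x*w^7 + 4*x*w^5 + (-1)*x*w^4 + 3*x*w^2 +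
      A^3*w + (-1)*A^2*w^3 + A^2*w^2 + (-1)*A^2*w + (-2)*A*w^4 + (-2)*A*w + (-1)*w^5 + w^3 +
      (-2)*w^2 + 2*w) * hp
  obtain ⟨y, hy⟩ : ∃ y, y = x * (x + (A - 1)) / ((w ^ 2 - A - 1) * x + 1) := ⟨_, rfl⟩
  obtain ⟨z, hz⟩ : ∃ z, z = -(A + w - 1) - x - y := ⟨_, rfl⟩
  have s0 : y * ((w ^ 2 - A - 1) * x + 1) = x * (x + (A - 1)) := by
    rw [hy, div_mul_cancel₀ _ hD]
  have hzD : z * ((w ^ 2 - A - 1) * x + 1)
      = -(A + w - 1 + x) * ((w ^ 2 - A - 1) * x + 1) - x * (x + (A - 1)) := by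
    rw [hz]; linear_combination (-1) * s0
  have hD2 : ((w ^ 2 - A - 1) * x + 1) ^ 2 ≠ 0 := pow_ne_zero 2 hD
  have s1 : z * ((w ^ 2 - A - 1) * y + 1) = y * (y + (A - 1)) := by
    rw [← hzD, ← s0] at hR1
    have : ((w ^ 2 - A - 1) * x + 1) ^ 2 * (z * ((w ^ 2 - A - 1) * y + 1) - y * (y + (A - 1)))
        = 0 := by linear_combination hR1
    exact sub_eq_zero.1 ((mul_eq_zero.1 this).resolve_left hD2)
  have s2 : x * ((w ^ 2 - A - 1) * z + 1) = z * (z + (A - 1)) := by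
    rw [← hzD] at hR2
    have : ((w ^ 2 - A - 1) * x + 1) ^ 2 * (x * ((w ^ 2 - A - 1) * z + 1) - z * (z + (A - 1)))
        = 0 := by linear_combination hR2
    exact sub_eq_zero.1 ((mul_eq_zero.1 this).resolve_left hD2)
  -- symmetric functions
  have f1 : x + y + z = -(A + w - 1) := by rw [hz]; ring
  have f2' : (w ^ 2 - A + 1) * (x * y + y * z + z * x) = (A + w - 1) * (w + 1) := by
    linear_combination s0 + s1 + s2 + ((x + y + z) - (A + w - 1) + (A - 2)) * f1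
  have f2 : (1 + w) * (x * y + y * z + z * x) = (A + w - 1) * (A + 1) := by
    have : (w + 1) * ((1 + w) * (x * y + y * z + z * x) - (A + w - 1) * (A + 1)) = 0 := by
      linear_combination (A + 1) * f2' - (x * y + y * z + z * x) * hAB
    exact sub_eq_zero.1 ((mul_eq_zero.1 this).resolve_left h1)
  have f3 : (1 + w) ^ 2 * (w ^ 2 - w + 1) * (x * y * z) = -((A + w - 1) ^ 2 * (A + 1)) := by
    linear_combination hG - (1 + w) ^ 2 * (w ^ 2 - w + 1) * x ^ 2 * f1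
      + (1 + w) * (w ^ 2 - w + 1) * x * f2
  have hxyz : x * y * z ≠ 0 := by
    intro h
    rw [h, mul_zero] at f3
    exact neg_ne_zero.2 (mul_ne_zero (pow_ne_zero 2 hE) hA) f3.symm
  have hx0 : x ≠ 0 := by rintro rfl; simp at hxyz
  have hy0 : y ≠ 0 := by rintro rfl; simp at hxyz
  have hz0 : z ≠ 0 := by rintro rfl; simp at hxyz
  -- `T e_j`
  obtain ⟨T, hTd⟩ : ∃ T, T = (1 + w) ^ 2 * (w ^ 2 - w + 1) := ⟨_, rfl⟩
  rw [← hTd] at hT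
  have t1 : T * (x + y + z) = -((1 + w) ^ 2 * (w ^ 2 - w + 1) * (A + w - 1)) := by
    rw [hTd, f1]; ring
  have t2 : T * (x * y + y * z + z * x)
      = (1 + w) * (w ^ 2 - w + 1) * (A + w - 1) * (A + 1) := by
    rw [hTd]; linear_combination (1 + w) * (w ^ 2 - w + 1) * f2
  have t3 : T * (x * y * z) = -((A + w - 1) ^ 2 * (A + 1)) := by rw [hTd]; exact f3
  have hprod : T * (((w ^ 2 - A - 1) * x + 1) * ((w ^ 2 - A - 1) * y + 1)
      * ((w ^ 2 - A - 1) * z + 1)) = (w ^ 2 - A - 1) ^ 3 * (-((A + w - 1) ^ 2 * (A + 1)))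
      + (w ^ 2 - A - 1) ^ 2 * ((1 + w) * (w ^ 2 - w + 1) * (A + w - 1) * (A + 1))
      + (w ^ 2 - A - 1) * (-((1 + w) ^ 2 * (w ^ 2 - w + 1) * (A + w - 1)))
      + (1 + w) ^ 2 * (w ^ 2 - w + 1) := by
    rw [← t1, ← t2, ← t3, ← hTd]; ring
  have hne : ((w ^ 2 - A - 1) * x + 1) * ((w ^ 2 - A - 1) * y + 1)
      * ((w ^ 2 - A - 1) * z + 1) ≠ 0 := by
    intro h
    rw [h, mul_zero] at hprod
    exact hV hprod.symm
  have hd1 : (w ^ 2 - A - 1) * y + 1 ≠ 0 := by intro h; rw [h] at hne; simp at hne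
  have hd2 : (w ^ 2 - A - 1) * z + 1 ≠ 0 := by intro h; rw [h] at hne; simp at hne
  refine M1_mk s0 s1 s2 hx0 hy0 hz0 hD hd1 hd2 ?_ ?_
  · rintro ⟨hxy, hyz⟩
    rw [← hyz, ← hxy] at f1 f2
    have g1 : (A + w - 1) * ((A + w - 1) * (1 + w) - 3 * (A + 1)) = 0 := by
      linear_combination (1 + w) * (A + w - 1 - 3 * x) * f1 + 3 * f2
    have g2 := (mul_eq_zero.1 g1).resolve_left hE
    have g3 : (w - 2) * (A + w + 2) = 0 := by linear_combination g2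
    have g4 := (mul_eq_zero.1 g3).resolve_left h2
    have g5 : (w + 1) * (w ^ 2 + 2 * w + 4) = 0 := by
      linear_combination hp - (A - w - 2 - w ^ 2) * g4
    exact mul_ne_zero h1 hm2 g5
  · have hT2 : T ^ 2 ≠ 0 := pow_ne_zero 2 hT
    have g1 : T ^ 2 * (((w ^ 2 - A - 1) * x ^ 2 + 2 * x + (A - 1))
        * ((w ^ 2 - A - 1) * y ^ 2 + 2 * y + (A - 1))
        * ((w ^ 2 - A - 1) * z ^ 2 + 2 * z + (A - 1)))
        = (w ^ 2 - A - 1) ^ 3 * (T * (x * y * z)) ^ 2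
        + 2 * (w ^ 2 - A - 1) ^ 2 * (T * (x * y * z)) * (T * (x * y + y * z + z * x))
        + (A - 1) * (w ^ 2 - A - 1) ^ 2 * ((T * (x * y + y * z + z * x)) ^ 2
          - 2 * (T * (x + y + z)) * (T * (x * y * z)))
        + 4 * (w ^ 2 - A - 1) * (T * (x + y + z)) * (T * (x * y * z))
        + 2 * (A - 1) * (w ^ 2 - A - 1) * ((T * (x + y + z)) * (T * (x * y + y * z + z * x))
          - 3 * T * (T * (x * y * z)))
        + (A - 1) ^ 2 * (w ^ 2 - A - 1) * ((T * (x + y + z)) ^ 2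
          - 2 * T * (T * (x * y + y * z + z * x)))
        + 8 * T * (T * (x * y * z)) + 4 * (A - 1) * T * (T * (x * y + y * z + z * x))
        + 2 * (A - 1) ^ 2 * T * (T * (x + y + z)) + (A - 1) ^ 3 * T ^ 2 := by ring
    have g2 : T ^ 2 * (((w ^ 2 - A - 1) * x + 1) ^ 2 * ((w ^ 2 - A - 1) * y + 1) ^ 2
        * ((w ^ 2 - A - 1) * z + 1) ^ 2)
        = (T * (((w ^ 2 - A - 1) * x + 1) * ((w ^ 2 - A - 1) * y + 1)
      * ((w ^ 2 - A - 1) * z + 1))) ^ 2 := by ring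
    apply mul_left_cancel₀ hT2
    rw [g1, g2, hprod, t1, t2, t3, hTd]
    linear_combination (-A^10 + 5*A^9*w^2 + (-4)*A^9*w + (-4)*A^9 + (-10)*A^8*w^4 + 18*A^8*w^3 + 8*A^8*w^2 +
      (-18)*A^8*w + (-4)*A^8 + 10*A^7*w^6 + (-32)*A^7*w^5 + 8*A^7*w^4 + 56*A^7*w^3 +
      (-28)*A^7*w^2 + (-26)*A^7*w + 3*A^7 + (-5)*A^6*w^8 + 28*A^6*w^7 + (-33)*A^6*w^6 +
      (-56)*A^6*w^5 + 108*A^6*w^4 + 22*A^6*w^3 + (-78)*A^6*w^2 + (-8)*A^6*w + 7*A^6 + A^5*w^10 +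
      (-12)*A^5*w^9 + 31*A^5*w^8 + 12*A^5*w^7 + (-119)*A^5*w^6 + 64*A^5*w^5 + 133*A^5*w^4 +
      (-84)*A^5*w^3 + (-61)*A^5*w^2 + 12*A^5*w + A^5 + 2*A^4*w^11 + (-11)*A^4*w^10 + 10*A^4*w^9
      + 47*A^4*w^8 + (-90)*A^4*w^7 + (-45)*A^4*w^6 + 162*A^4*w^5 + 8*A^4*w^4 + (-108)*A^4*w^3 +
      (-14)*A^4*w^2 + 14*A^4*w + A^4 + A^3*w^12 + (-4)*A^3*w^11 + (-4)*A^3*w^10 + 32*A^3*w^9 +
      (-17)*A^3*w^8 + (-74)*A^3*w^7 + 62*A^3*w^6 + 92*A^3*w^5 + (-55)*A^3*w^4 + (-76)*A^3*w^3 +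
      7*A^3*w^2 + 12*A^3*w + (-4)*A^3 + (-2)*A^2*w^11 + 5*A^2*w^10 + 6*A^2*w^9 + (-19)*A^2*w^8 +
      (-18)*A^2*w^7 + 50*A^2*w^6 + 36*A^2*w^5 + (-67)*A^2*w^4 + (-28)*A^2*w^3 + 23*A^2*w^2 +
      (-2)*A^2*w + 6*A*w^9 + (-15)*A*w^8 + 36*A*w^6 + (-20)*A*w^5 + (-33)*A*w^4 + 6*A*w^3 +
      4*A*w^2 + 3*w^10 + (-6)*w^9 + (-4)*w^8 + 10*w^7 + (-5)*w^6 + (-10)*w^5 + (-2)*w^4 +
      (-2)*w^3) * hp

variable {K : Type*} [Field K] {a b : K}

theorem M1_two {L : K} {z : ℕ → K} (hz : NCyc a b 2 L z) :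
    z 0 + z 1 = -(1 + a) ∧ (b + 1) * (z 0 * z 1) = 1 + a := by
  have hp : z 2 = z 0 := hz.per 0
  have s0 : z 1 * (b * z 0 + 1) = z 0 * (z 0 + a) := hz.step 0
  have s1 : z 0 * (b * z 1 + 1) = z 1 * (z 1 + a) := by
    have := hz.step 1
    rwa [show (1 + 1 : ℕ) = 2 from rfl, hp] at this
  have hne : z 1 - z 0 ≠ 0 := sub_ne_zero.2 (hz.ne 0)
  have h1 : z 0 + z 1 = -(1 + a) := by
    have : (z 1 - z 0) * (z 0 + z 1 + (1 + a)) = 0 := by linear_combination s0 - s1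
    have h := (mul_eq_zero.1 this).resolve_left hne
    linear_combination h
  refine ⟨h1, ?_⟩
  linear_combination s0 + (z 0 - 1) * h1

theorem M1_quad {k : Type*} [Field k] [Algebra k K] [IsAlgClosed k] {t : K} (u v : k)
    (h : t ^ 2 + algebraMap k K u * t + algebraMap k K v = 0) :
    t ∈ Set.range (algebraMap k K) := by
  refine mem_of_root (Polynomial.C 1 * Polynomial.X ^ 2 + Polynomial.C u * Polynomial.X
    + Polynomial.C v) ?_ ?_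
  · intro h0
    have h5 := Polynomial.degree_quadratic (a := (1 : k)) (b := u) (c := v) one_ne_zero
    rw [h0, Polynomial.degree_zero] at h5
    exact absurd h5 (by decide)
  · simp only [map_add, map_mul, map_pow, Polynomial.aeval_X, Polynomial.aeval_C, map_one, one_mul]
    exact h

theorem milnor {k : Type*} [Field k] [Algebra k K] [IsAlgClosed k] [CharZero k] [IsAlgClosed K]
    (hab : a * b ≠ 1)
    (hnc : ¬ (a ∈ Set.range (algebraMap k K) ∧ b ∈ Set.range (algebraMap k K)))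
    {z : ℕ → K} (hz : NCyc a b 2 (-3) z) (hzx : Exact 2 z) :
    ∃ x : ℕ → K, NCyc a b 3 1 x ∧ Exact 3 x := by
  haveI : CharZero K := charZero_of_injective_algebraMap (algebraMap k K).injective
  obtain ⟨h1, h2⟩ := M1_two hz
  have hB : b + 1 ≠ 0 := by
    intro h
    rw [h, zero_mul] at h2
    apply hab
    linear_combination h2 + a * h
  have hP : z 0 * z 1 = (1 + a) / (b + 1) := by rw [eq_div_iff hB]; linear_combination h2
  have hmul : (b * z 0 ^ 2 + 2 * z 0 + a) * (b * z 1 ^ 2 + 2 * z 1 + a)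
      = -3 * ((b * z 0 + 1) ^ 2 * (b * z 1 + 1) ^ 2) := by
    have := hz.mul
    simpa [prod_range_succ] using this
  have hm1 : b ^ 2 * (z 0 * z 1) ^ 2 + 2 * b * (z 0 * z 1) * (z 0 + z 1)
      + a * b * ((z 0 + z 1) ^ 2 - 2 * (z 0 * z 1)) + 4 * (z 0 * z 1) + 2 * a * (z 0 + z 1) + a ^ 2
      = -3 * (b ^ 2 * (z 0 * z 1) + b * (z 0 + z 1) + 1) ^ 2 := by
    linear_combination hmul
  rw [h1, hP] at hm1
  have hab' : 1 - a * b ≠ 0 := sub_ne_zero.2 (Ne.symm hab)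
  have hR : (1 + a) ^ 2 * (b + 1) ^ 2 = 4 * ((1 + a) + (b + 1)) := by
    have h3 : (1 - a * b) * ((1 + a) ^ 2 * (b + 1) ^ 2 - 4 * ((1 + a) + (b + 1))) = 0 := by
      field_simp at hm1
      linear_combination (-1) * hm1
    exact sub_eq_zero.1 ((mul_eq_zero.1 h3).resolve_left hab')
  obtain ⟨w, hw⟩ : ∃ w : K, w = (1 + a) * (b + 1) / 2 := ⟨_, rfl⟩
  have hw2 : (1 + a) * (b + 1) = 2 * w := by rw [hw]; field_simp
  have hs : (1 + a) + (b + 1) = w ^ 2 := by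
    have h4 : (4 : K) ≠ 0 := by norm_num
    apply mul_left_cancel₀ h4
    rw [← hR, ← mul_pow, hw2]; ring
  have hp : (1 + a) ^ 2 - w ^ 2 * (1 + a) + 2 * w = 0 := by
    rw [← hw2, ← hs]; ring
  have hwk : w ∉ Set.range (algebraMap k K) := by
    rintro ⟨c, hc⟩
    apply hnc
    have hA : 1 + a ∈ Set.range (algebraMap k K) := by
      refine M1_quad (-c ^ 2) (2 * c) ?_
      rw [map_neg, map_pow, map_mul, map_ofNat, hc]
      linear_combination hp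
    obtain ⟨α, hα⟩ := hA
    refine ⟨⟨α - 1, ?_⟩, ⟨c ^ 2 - α - 1, ?_⟩⟩
    · rw [map_sub, map_one, hα]; ring
    · rw [map_sub, map_sub, map_pow, map_one, hα, hc, ← hs]; ring
  have hcst : ∀ c : k, w - algebraMap k K c ≠ 0 := fun c h => hwk ⟨c, (sub_eq_zero.1 h).symm⟩
  have hq : ∀ u v : k, w ^ 2 + algebraMap k K u * w + algebraMap k K v ≠ 0 := by
    intro u v h
    exact hwk (M1_quad u v h)
  have e1 : w + 1 ≠ 0 := by
    have := hcst (-1); rwa [map_neg, map_one, sub_neg_eq_add] at this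
  have e0 : w ≠ 0 := by
    have := hcst 0; rwa [map_zero, sub_zero] at this
  have e2 : w - 2 ≠ 0 := by
    have := hcst 2; rwa [map_ofNat] at this
  have e3 : w ^ 2 - w + 1 ≠ 0 := by
    have := hq (-1) 1
    rw [map_neg, map_one] at this
    intro h; apply this; linear_combination h
  have e4 : w ^ 2 + 2 * w + 4 ≠ 0 := by
    have := hq 2 4
    rwa [map_ofNat, map_ofNat] at this
  obtain ⟨x, hx, hx'⟩ := M1_core (1 + a) w hp e1 e0 e2 e3 e4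
  have ea : 1 + a - 1 = a := by ring
  have eb : w ^ 2 - (1 + a) - 1 = b := by rw [← hs]; ring
  rw [ea, eb] at hx
  exact ⟨x, hx, hx'⟩

/-- there is only one cycle of period two (`a * b ≠ 1` is needed: for `a = b = -1` the map is
`z ↦ -z`) -/
theorem two_cycle_unique (hab : a * b ≠ 1) {L L' : K} {z y : ℕ → K} (hz : NCyc a b 2 L z)
    (hy : NCyc a b 2 L' y) (hzx : Exact 2 z) (hyx : Exact 2 y) (h2 : (2 : K) ≠ 0) :
    ∃ i j, z i = y j := by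
  obtain ⟨h1, h3⟩ := M1_two hz
  obtain ⟨h1', h3'⟩ := M1_two hy
  have hB : b + 1 ≠ 0 := by
    intro h
    rw [h, zero_mul] at h3
    apply hab
    linear_combination h3 + a * h
  have hP : z 0 * z 1 = y 0 * y 1 := mul_left_cancel₀ hB (h3.trans h3'.symm)
  have h : (z 0 - y 0) * (z 0 - y 1) = 0 := by
    linear_combination (-1) * hP - z 0 * (h1' - h1)
  rcases mul_eq_zero.1 h with h | h
  · exact ⟨0, 0, sub_eq_zero.1 h⟩
  · exact ⟨0, 1, sub_eq_zero.1 h⟩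

end M1

end Pool.Agent.helper56.P3
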